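import Pool.Agent.Y139.FR.Lin

/-!
# Lipschitz-free spaces of metric spaces containing a square do not embed in `F(ℝ × ℤ)`

`FreeSp M o` is the Lipschitz-free space of the metric space `M` with base point `o` (the closed
linear span of the evaluation functionals in the dual of the space `Lip0 M o` of the Lipschitz
functions vanishing at `o`), `Lines = ℝ × ℤ` and `Plane = ℝ²` with the Euclidean metric.
-/

set_option autoImplicit false

namespace Pool.Agent.Results.MP_71cd47_an.NoSubspace

open Pool.Agent.H266R3.LF Pool.Agent.Y139.FR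

/-- bi-Lipschitz embeddings -/
def BiLipschitz {X Y : Type} [MetricSpace X] [MetricSpace Y] (f : X → Y) : Prop :=
  ∃ K L : ℝ, ∀ x y, dist (f x) (f y) ≤ K * dist x y ∧ dist x y ≤ L * dist (f x) (f y)

/-- `M` contains a bi-Lipschitz copy of the unit square of the Euclidean plane. -/
def ContainsSquare (M : Type) [MetricSpace M] : Prop := ∃ ι : ↥unitSquare → M, BiLipschitz ι

/-- `N` embeds bi-Lipschitzly in `ℝ × ℤ`. -/
def EmbedsInLines (N : Type) [MetricSpace N] : Prop := ∃ κ : N → Lines, BiLipschitz κ

/-- The Lipschitz-free space of `M` is isomorphic to a subspace of the Lipschitz-free space of `N`: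
there is a bounded linear operator between them which is bounded below. -/
def FreeEmbeds (M N : Type) [MetricSpace M] [MetricSpace N] (o : M) (p : N) : Prop :=
  ∃ (S : FreeSp M o →L[ℝ] FreeSp N p) (c : ℝ), 0 < c ∧ ∀ μ, c * ‖μ‖ ≤ ‖S μ‖

/-- There is a bounded linear bijection from the Lipschitz-free space of `M` onto that of `N`. -/
def FreeBijection (M N : Type) [MetricSpace M] [MetricSpace N] (o : M) (p : N) : Prop :=
  ∃ T : FreeSp M o →L[ℝ] FreeSp N p, Function.Bijective T

/-- (1) Let `M` be a metric space which contains a bi-Lipschitz copy of the unit square of the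
Euclidean plane and let `N` be a metric space which embeds bi-Lipschitzly in `ℝ × ℤ`.  Then the
Lipschitz-free space of `M` is not isomorphic to a subspace of the Lipschitz-free space of `N`.
(2) In particular this holds for `N = ℝ × ℤ` and every normed space `M` of dimension at least two.
(3) In particular there is no bounded linear bijection `F(ℝ × ℤ) → F(ℝ²)`. -/
theorem result :
    (∀ (M N : Type) [MetricSpace M] [MetricSpace N] (o : M) (p : N),
      ContainsSquare M → EmbedsInLines N → ¬ FreeEmbeds M N o p) ∧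
    (∀ (E : Type) [NormedAddCommGroup E] [NormedSpace ℝ E], 1 < Module.rank ℝ E → ∀ o : E,
      ¬ FreeEmbeds E Lines o lo) ∧
    ¬ FreeBijection Lines Plane lo 0 := by
  have main : ∀ (M N : Type) [MetricSpace M] [MetricSpace N] (o : M) (p : N),
      ContainsSquare M → EmbedsInLines N → ¬ FreeEmbeds M N o p := by
    rintro M N _ _ o p ⟨ι, K₁, L₁, h₁⟩ ⟨κ, K₂, L₂, h₂⟩ ⟨S, c, hc, hS⟩
    exact no_embedding_general M N o p ι K₁ L₁ (fun x y => (h₁ x y).1) (fun x y => (h₁ x y).2)
      κ K₂ L₂ (fun x y => (h₂ x y).1) (fun x y => (h₂ x y).2) S c hc hS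
  have hid : EmbedsInLines Lines := ⟨id, 1, 1, fun x y => by simp⟩
  refine ⟨main, ?_, no_bijection⟩
  intro E _ _ hE o
  refine main E Lines o lo ?_ hid
  have h1 : ((2 : ℕ) : Cardinal) ≤ Module.rank ℝ E := by
    have h2 : Order.succ (1 : Cardinal) ≤ Module.rank ℝ E := Order.succ_le_of_lt hE
    have h3 : Order.succ (1 : Cardinal) = ((2 : ℕ) : Cardinal) := by
      have := Cardinal.nat_succ 1
      rw [Nat.cast_one] at this
      rw [← this]
    rwa [h3] at h2
  obtain ⟨f, hf⟩ := Module.le_rank_iff_exists_linearMap.1 h1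
  let g : Plane →ₗ[ℝ] E := f.comp (WithLp.linearEquiv 2 ℝ (Fin 2 → ℝ)).toLinearMap
  have hg : Function.Injective g := hf.comp (WithLp.linearEquiv 2 ℝ (Fin 2 → ℝ)).injective
  obtain ⟨K, hK0, hK⟩ := g.exists_antilipschitzWith (LinearMap.ker_eq_bot.2 hg)
  let gc : Plane →L[ℝ] E := LinearMap.toContinuousLinearMap g
  refine ⟨fun x => g (x : Plane), ‖gc‖, K, fun x y => ⟨?_, ?_⟩⟩
  · rw [dist_eq_norm, ← map_sub, Subtype.dist_eq, dist_eq_norm]
    exact gc.le_opNorm _
  · exact hK.le_mul_dist x y

end Pool.Agent.Results.MP_71cd47_an.NoSubspace
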